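import Pool.Agent.TH951.FE.LangP

/-!
# The dynamical Lang inequality with a constant independent of `S`

For rational maps of degree `d` over number fields of degree at most `D` with potentially good
reduction outside a finite set `S` of primes (or with little bad reduction outside `S`), the
canonical height of a wandering point is at least `c` times the height of the map in moduli space,
as soon as the latter is larger than a bound depending on `S`; the constant `c` depends only on `d`
and `D`, not on `S`.
-/

set_option autoImplicit false

namespace Pool.Agent.Results.MP_4f5c90_nt.UniformOutsideS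

open NumberField Pool.Agent.H951R3.PB

universe u

/-- The reduction of `f` outside `M` is good up to the proportion `δ`: for some extensions `wi`, `wf`
of the places of `K` to the algebraic closure and some finite set `T` of finite places outside which
`f` has potentially good reduction, the sum of the sizes `1 + max (msz d f w) 0` over the places of
`T` not dividing `M` is at most `δ` times the sum of the sizes over the infinite places and over the
places of `T` dividing `M`. -/
def LittleBad {K : Type u} [Field K] [NumberField K] (δ : ℝ) (M d : ℕ)
    (f : Fin 2 → MvPolynomial (Fin 2) K) : Prop :=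
  ∃ (wi : InfinitePlace K → AbsoluteValue (AlgebraicClosure K) ℝ)
    (wf : FinitePlace K → AbsoluteValue (AlgebraicClosure K) ℝ) (T : Finset (FinitePlace K)),
    (∀ v, Ext v.val (wi v)) ∧ (∀ v, Ext v.val (wf v)) ∧ (∀ v, v ∉ T → PotGood v.val d f) ∧
    ∑ v ∈ T.filter (fun v => v.val (M : K) = 1), (1 + max (msz d f (wf v)) 0) ≤
      δ * (∑ v : InfinitePlace K, (v.mult : ℝ) * (1 + max (msz d f (wi v)) 0) +
        ∑ v ∈ T.filter (fun v => v.val (M : K) ≠ 1), (1 + max (msz d f (wf v)) 0))

/-- Let `d ≥ 2`, and let `P 1, …, P l` be integer forms of degree `2 d k` in the coefficients of a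
pair of binary forms of degree `d` such that `P j / Res ^ k` is invariant under conjugation
(regular functions on the moduli space of rational maps of degree `d`); `hmod` is the height of
the point `[Res ^ k : P 1 : … : P l]`, relative to `K`, and `hcan` the canonical height of `f`,
relative to `K`. There are `c > 0` and `δ > 0`, depending only on `d`, `D` and the `P j`, such that
for every integer `M ≠ 0` there is `A` such that: for every number field `K` of degree at most `D`
and every morphism `f` of degree `d` of the projective line over `K` that has potentially good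
reduction at all finite places not dividing `M`, or more generally whose reduction outside `M` is
good up to the proportion `δ`, and that satisfies `hmod f > A`, every point of the projective line
over `K` that is not preperiodic has `hcan f x ≥ c * hmod f`. -/
theorem result (d : ℕ) (hd : 2 ≤ d) (D k l : ℕ)
    (P : Fin l → MvPolynomial (Fin 2 × Fin (d + 1)) ℤ) (hP : ∀ j, IsInv.{u} d k (P j)) :
    ∃ c δ : ℝ, 0 < c ∧ 0 < δ ∧ ∀ M : ℕ, M ≠ 0 → ∃ A : ℝ,
    ∀ (K : Type u) [Field K] [NumberField K], Module.finrank ℚ K ≤ D →
    ∀ f : Fin 2 → MvPolynomial (Fin 2) K, (∀ i, (f i).IsHomogeneous d) →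
      (∀ x : Fin 2 → AlgebraicClosure K, (∀ i, MvPolynomial.aeval x (f i) = 0) → x = 0) →
    ((∀ v : FinitePlace K, v.val (M : K) = 1 → PotGood v.val d f) ∨ LittleBad δ M d f) →
    A < hmod d k l P f →
    ∀ x : Fin 2 → K, x ≠ 0 →
      (¬ ∃ m n : ℕ, m < n ∧ ∃ c : K, c ≠ 0 ∧
        (fun v : Fin 2 → K => fun i => MvPolynomial.eval v (f i))^[n] x =
          c • (fun v : Fin 2 → K => fun i => MvPolynomial.eval v (f i))^[m] x) →
      c * hmod d k l P f ≤ hcan d f x := by
  classical
  obtain ⟨c, δ, hc, hδ, h⟩ := TH951.FE.lang_unif.{u} d hd D k l P hP
  refine ⟨c, δ, hc, hδ, fun M hM => ?_⟩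
  obtain ⟨A, hA, h⟩ := h M hM
  refine ⟨A, ?_⟩
  intro K _ _ hK f hf hz hred hAh x hx hpre
  have hgen : LittleBad δ M d f → c * hmod d k l P f ≤ hcan d f x := by
    rintro ⟨wi, wf, T, hwi, hwf, hT, hs⟩
    exact h K hK f hf hz wi hwi wf hwf T hT hs hAh x hx hpre
  rcases hred with hred | hred
  · apply hgen
    choose wi hwi using fun v : InfinitePlace K => exists_ext_inf v
    choose wf hwf using fun v : FinitePlace K => exists_ext_fin v
    have hM0 : (M : K) ≠ 0 := by exact_mod_cast hM
    have hfin := F4_finite_ne hM0
    refine ⟨wi, wf, hfin.toFinset, hwi, hwf, fun v hv => hred v ?_, ?_⟩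
    · by_contra h1
      exact hv (by rw [Set.Finite.mem_toFinset]; exact h1)
    · have h1 : hfin.toFinset.filter (fun v => v.val (M : K) = 1) = ∅ := by
        rw [Finset.filter_eq_empty_iff]
        intro v hv
        rw [Set.Finite.mem_toFinset] at hv
        exact hv
      rw [h1, Finset.sum_empty]
      refine mul_nonneg hδ.le (add_nonneg (Finset.sum_nonneg fun v _ => ?_)
        (Finset.sum_nonneg fun v _ => ?_))
      · have : 0 ≤ max (msz d f (wi v)) 0 := le_max_right _ _
        positivity
      · have : 0 ≤ max (msz d f (wf v)) 0 := le_max_right _ _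
        positivity
  · exact hgen hred

end Pool.Agent.Results.MP_4f5c90_nt.UniformOutsideS
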