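import Mathlib
import Pool.Agent.H627.UB.Wl

/-!
# A lower bound for the canonical height of wandering points, for all morphisms of projective space

For all `N ≥ 1`, `d ≥ 2` and `D ≥ 1` there are `C > 0` and `k` such that, for every number field
`K` of degree at most `D`, every morphism `f : ℙ^N → ℙ^N` of degree `d` defined over `K` and every
point `P` of degree at most `D` over `ℚ` which is not preperiodic for `f`, the canonical height of
`P` is at least `exp (- C (1 + h(f)) ^ k)`.
-/

set_option autoImplicit false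

namespace Pool.Agent.Results.MP_4f5c90_nt.WanderingPointsAllMorphisms

open NumberField Module MvPolynomial Filter Topology
open scoped LinearAlgebra.Projectivization

noncomputable section

/-- `IsMorphism d F`: the polynomials `F_0, …, F_N` over `K` are homogeneous of degree `d` and
their only common zero in an algebraic closure of `K` is the origin, so that
`[F_0 : … : F_N]` is a morphism `ℙ^N → ℙ^N` of degree `d` defined over `K`. -/
def IsMorphism {K : Type} [Field K] {N : ℕ} (d : ℕ)
    (F : Fin (N + 1) → MvPolynomial (Fin (N + 1)) K) : Prop :=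
  (∀ i, (F i).IsHomogeneous d) ∧
    ∀ z : Fin (N + 1) → AlgebraicClosure K, (∀ i, aeval z (F i) = 0) → z = 0

/-- The polynomial map `z ↦ (F_0(z), …, F_N(z))` of `M ^ (N + 1)`, for a field `M` over `K`. -/
def evalMap {K : Type} [Field K] {M : Type} [Field M] [Algebra K M] {N : ℕ}
    (F : Fin (N + 1) → MvPolynomial (Fin (N + 1)) K) (z : Fin (N + 1) → M) : Fin (N + 1) → M :=
  fun i => aeval z (F i)

/-- `IsPreperiodic F P`: two different iterates of `[F_0 : … : F_N]` agree at the point `P` of
`ℙ^N(M)`, i.e. their values at the coordinates of `P` are proportional. -/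
def IsPreperiodic {K : Type} [Field K] {M : Type} [Field M] [Algebra K M] {N : ℕ}
    (F : Fin (N + 1) → MvPolynomial (Fin (N + 1)) K) (P : ℙ M (Fin (N + 1) → M)) : Prop :=
  ∃ m n : ℕ, m < n ∧ ∃ c : M, c ≠ 0 ∧ (evalMap F)^[n] P.rep = c • (evalMap F)^[m] P.rep

/-- `IsCanonicalHeight d F P h`: the canonical height of `P` for `[F_0 : … : F_N]` is `h`, i.e.
`h` is the limit of `h(f^n(P)) / d^n`, where the absolute logarithmic Weil height of a point of
`ℙ^N(M)` is Mathlib's `Height.logHeight` (relative to `M`) divided by `[M : ℚ]`. -/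
def IsCanonicalHeight {K : Type} [Field K] {M : Type} [Field M] [NumberField M] [Algebra K M]
    {N : ℕ} (d : ℕ) (F : Fin (N + 1) → MvPolynomial (Fin (N + 1)) K)
    (P : ℙ M (Fin (N + 1) → M)) (h : ℝ) : Prop :=
  Tendsto (fun n : ℕ => Height.logHeight ((evalMap F)^[n] P.rep) /
    ((finrank ℚ M : ℝ) * (d : ℝ) ^ n)) atTop (𝓝 h)

/-- `HasDegreeLE D P`: the point `P` of `ℙ^N(M)` has coordinates in a subfield of `M` of degree at
most `D` over `ℚ`. -/
def HasDegreeLE {M : Type} [Field M] [NumberField M] {N : ℕ} (D : ℕ)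
    (P : ℙ M (Fin (N + 1) → M)) : Prop :=
  ∃ E : IntermediateField ℚ M, finrank ℚ E ≤ D ∧ ∃ c : M, c ≠ 0 ∧ ∀ i, c * P.rep i ∈ E

/-- The height `h(f)` of `f = [F_0 : … : F_N]`: Mathlib's logarithmic height `Height.logHeight`
(relative to `K`) of the vector of all coefficients of all the `F_i`, indexed by the pairs
`(i, s)` with `s` an exponent of total degree `d`. -/
def mapHeight {K : Type} [Field K] [NumberField K] {N : ℕ} (d : ℕ)
    (F : Fin (N + 1) → MvPolynomial (Fin (N + 1)) K) : ℝ :=
  Height.logHeight (fun p : Fin (N + 1) × {s : Fin (N + 1) →₀ ℕ //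
    s ∈ (Finset.univ : Finset (Fin (N + 1))).finsuppAntidiag d} => (F p.1).coeff p.2.1)

/-- **Wandering points: a lower bound for the canonical height, uniform in the morphism.** -/
theorem result (N d D : ℕ) (hN : 1 ≤ N) (hd : 2 ≤ d) (hD : 1 ≤ D) :
    ∃ (C : ℝ) (k : ℕ), 0 < C ∧ ∀ (K : Type) [Field K] [NumberField K], finrank ℚ K ≤ D →
      ∀ F : Fin (N + 1) → MvPolynomial (Fin (N + 1)) K, IsMorphism d F →
      ∀ (M : Type) [Field M] [NumberField M] [Algebra K M] (P : ℙ M (Fin (N + 1) → M)),
      HasDegreeLE D P → ¬ IsPreperiodic F P →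
      ∃ h : ℝ, IsCanonicalHeight d F P h ∧ Real.exp (-(C * (1 + mapHeight d F) ^ k)) ≤ h := by
  obtain ⟨C, k, hC, h⟩ := H627.UB.wander N d D hN hd hD
  exact ⟨C, k, hC, fun K _ _ hKD F hF M _ _ _ P hP hw =>
    h K hKD F hF.1 hF.2 M P.rep P.rep_nonzero hP hw⟩

end

end Pool.Agent.Results.MP_4f5c90_nt.WanderingPointsAllMorphisms
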