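import Pool.Agent.TH450.DL.B

/-!
# The dynamical Lang height inequality for all rational maps of the projective line, with a
constant depending on the bad places
-/

set_option autoImplicit false

namespace Pool.Agent.Results.MP_4f5c90_nt.WanderingPointsBadPlaces

open Real NumberField Pool.Agent.H951R3.PB

universe u

/-- Let `d ≥ 2`, and let `P 1, …, P l` be integer forms of degree `2 d k` in the coefficients of a
pair of binary forms of degree `d` such that `P j / Res ^ k` is invariant under conjugation
(regular functions on the moduli space of rational maps of degree `d`); `hmod` is the height of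
the point `[Res ^ k : P 1 : … : P l]`. There is a constant `C`, depending on `d`, `D` and the `P j`
only, such that for every number field `K` of degree at most `D`, every morphism `f` of degree `d`
of the projective line over `K`, every finite set `T` of finite places outside which `f` has
potentially good reduction, and every `R ≥ 1` that is at least the number of elements of `T`, or at
least the ratio of the sum over the infinite places and `T` of `1 +` (size of `f` at `v`) to the
value of this term at one of these places: every point of the projective line over `K` that is not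
preperiodic satisfies `exp (- C R log (1 + R)) * (1 + hmod f) ≤ hcan f x`, where `hcan` is the
canonical height of `f` relative to `K`. -/
theorem result (d : ℕ) (hd : 2 ≤ d) (D k l : ℕ)
    (P : Fin l → MvPolynomial (Fin 2 × Fin (d + 1)) ℤ) (hP : ∀ j, IsInv.{u} d k (P j)) :
    ∃ C : ℝ, 0 < C ∧ ∀ (K : Type u) [Field K] [NumberField K], Module.finrank ℚ K ≤ D →
    ∀ f : Fin 2 → MvPolynomial (Fin 2) K, (∀ i, (f i).IsHomogeneous d) →
      (∀ x : Fin 2 → AlgebraicClosure K, (∀ i, MvPolynomial.aeval x (f i) = 0) → x = 0) →
    ∀ T : Finset (FinitePlace K), (∀ v, v ∉ T → PotGood v.val d f) →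
    ∀ R : ℝ, 1 ≤ R →
      ((T.card : ℝ) ≤ R ∨
        ∃ (wi : InfinitePlace K → AbsoluteValue (AlgebraicClosure K) ℝ)
          (wf : FinitePlace K → AbsoluteValue (AlgebraicClosure K) ℝ)
          (j : InfinitePlace K ⊕ T), (∀ v, Ext v.val (wi v)) ∧ (∀ v, Ext v.val (wf v)) ∧
          ∑ v : InfinitePlace K, (1 + max (msz d f (wi v)) 0) +
            ∑ v ∈ T, (1 + max (msz d f (wf v)) 0) ≤
            R * (1 + max (msz d f (Sum.elim wi (fun v : T => wf v.1) j)) 0)) →
    ∀ x : Fin 2 → K, x ≠ 0 →
      (¬ ∃ m n : ℕ, m < n ∧ ∃ c : K, c ≠ 0 ∧
        (fun v : Fin 2 → K => fun i => MvPolynomial.eval v (f i))^[n] x =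
          c • (fun v : Fin 2 → K => fun i => MvPolynomial.eval v (f i))^[m] x) →
      exp (-C * R * log (1 + R)) * (1 + hmod d k l P f) ≤ hcan d f x :=
  Pool.Agent.TH450.DL.lang_conc d hd D k l P hP

end Pool.Agent.Results.MP_4f5c90_nt.WanderingPointsBadPlaces
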